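import Mathlib

/-!
# The Lindelöf number of a monotonically normal space is at most that of any dense subspace
-/

namespace Pool.Agent.Results.MP_d81239_gt.LindelofDense

open Cardinal hiding univ
open Set Topology

universe u

/-- Every open cover of `Z` has a subcover of cardinality at most `κ`. -/
def CoversReduce (Z : Type u) [TopologicalSpace Z] (κ : Cardinal.{u}) : Prop :=
  ∀ 𝒰 : Set (Set Z), (∀ U ∈ 𝒰, IsOpen U) → ⋃₀ 𝒰 = univ →
    ∃ 𝒱 ⊆ 𝒰, #𝒱 ≤ κ ∧ ⋃₀ 𝒱 = univ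

/-- The Lindelöf number `l(Z)`: the least infinite cardinal `κ` such that every open cover of
`Z` has a subcover of cardinality at most `κ`. -/
noncomputable def lindelofNumber (Z : Type u) [TopologicalSpace Z] : Cardinal.{u} :=
  sInf {κ | ℵ₀ ≤ κ ∧ CoversReduce Z κ}

/-- `X` is monotonically normal. -/
def MonotonicallyNormal (X : Type u) [TopologicalSpace X] : Prop :=
  T1Space X ∧ ∃ H : X → Set X → Set X,
    (∀ x U, IsOpen U → x ∈ U → IsOpen (H x U) ∧ x ∈ H x U ∧ H x U ⊆ U) ∧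
    ∀ x U y V, IsOpen U → x ∈ U → IsOpen V → y ∈ V →
      (H x U ∩ H y V).Nonempty → x ∈ V ∨ y ∈ U

theorem lindelofNumber_mem (Z : Type u) [TopologicalSpace Z] :
    ℵ₀ ≤ lindelofNumber Z ∧ CoversReduce Z (lindelofNumber Z) := by
  have hne : {κ : Cardinal.{u} | ℵ₀ ≤ κ ∧ CoversReduce Z κ}.Nonempty := by
    refine ⟨max ℵ₀ #(Set Z), le_max_left _ _, fun 𝒰 _ h𝒰 => ⟨𝒰, subset_rfl, ?_, h𝒰⟩⟩
    exact (mk_set_le 𝒰).trans (le_max_right _ _)
  exact csInf_mem hne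

/-- In the well-order of type `κ⁺`, a function into a set of size `≤ κ` has an unbounded
fiber. -/
theorem pigeon {X : Type u} {κ : Cardinal.{u}} (hκ : ℵ₀ ≤ κ) (E : Set X) (hE : #E ≤ κ)
    (f : (Order.succ κ).ord.ToType → X) (hf : ∀ ξ, f ξ ∈ E) :
    ∃ e, ∀ γ, ∃ ξ, f ξ = e ∧ γ < ξ := by
  by_contra hcon
  push Not at hcon
  choose b hb using hcon
  have hcov : (univ : Set (Order.succ κ).ord.ToType) ⊆ ⋃ e : E, Iic (b e) := by
    intro ξ _
    exact mem_iUnion.2 ⟨⟨f ξ, hf ξ⟩, hb _ ξ rfl⟩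
  have h1 : #(⋃ e : E, Iic (b e)) ≤ κ := by
    refine (mk_iUnion_le_sum_mk).trans ?_
    refine (sum_le_sum _ (fun _ => κ) fun e => ?_).trans ?_
    · have : Iic (b e.1) = insert (b e.1) (Iio (b e.1)) := by
        ext x; simp [le_iff_eq_or_lt]
      rw [this]
      refine (mk_insert_le).trans ?_
      have h2 : #(Iio (b e.1)) < Order.succ κ := mk_Iio_toType_ord_lt _
      have h3 : #(Iio (b e.1)) ≤ κ := Order.lt_succ_iff.1 h2
      calc #(Iio (b e.1)) + 1 ≤ κ + κ := add_le_add h3 (one_le_aleph0.trans hκ)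
        _ = κ := add_eq_self hκ
    · rw [sum_const']
      exact (mul_le_mul' hE le_rfl).trans (mul_eq_self hκ).le
  have h2 : #((univ : Set (Order.succ κ).ord.ToType)) ≤ κ := (mk_le_mk_of_subset hcov).trans h1
  rw [mk_univ, mk_ord_toType] at h2
  exact absurd h2 (not_le.2 (Order.lt_succ κ))

/-- **Main step.** -/
theorem coversReduce_of_dense {X : Type u} [TopologicalSpace X] (hX : MonotonicallyNormal X)
    (Y : Set X) (hY : Dense Y) {κ : Cardinal.{u}} (hκ : ℵ₀ ≤ κ) (hYκ : CoversReduce Y κ) :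
    CoversReduce X κ := by
  classical
  obtain ⟨_, H, hH, hHH⟩ := hX
  intro 𝒰 h𝒰 hcov
  have hpt : ∀ x : X, ∃ U ∈ 𝒰, x ∈ U := fun x => by
    have : x ∈ ⋃₀ 𝒰 := hcov ▸ mem_univ x
    simpa using this
  choose U hU𝒰 hxU using hpt
  have hUo : ∀ x, IsOpen (U x) := fun x => h𝒰 _ (hU𝒰 x)
  have hcl : ∀ x V, IsOpen V → x ∈ V → closure (H x V) ⊆ V := by
    intro x V hV hx y hy
    by_contra hyV
    have hne : y ∈ ({x}ᶜ : Set X) := fun h => hyV (h ▸ hx)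
    have h1 := hH y {x}ᶜ isOpen_compl_singleton hne
    have h2 := mem_closure_iff.1 hy _ h1.1 h1.2.1
    rcases hHH y {x}ᶜ x V isOpen_compl_singleton hne hV hx h2 with h | h
    · exact hyV h
    · exact h rfl
  -- a small subset `E` of `Y`
  obtain ⟨E, hEκ, hEY⟩ : ∃ E : Set X, #E ≤ κ ∧ ∀ y ∈ Y, ∃ e ∈ E, y ∈ H e (U e) := by
    obtain ⟨𝒱, h𝒱, h𝒱κ, h𝒱cov⟩ := hYκ (range fun y : Y => ((↑) ⁻¹' (H y.1 (U y.1)) : Set Y))
      (by
        rintro _ ⟨y, rfl⟩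
        exact (hH _ _ (hUo _) (hxU _)).1.preimage continuous_subtype_val)
      (by
        ext y
        simp only [mem_sUnion, mem_range, exists_exists_eq_and, mem_preimage, mem_univ, iff_true]
        exact ⟨y, (hH _ _ (hUo _) (hxU _)).2.1⟩)
    choose g hg using fun V : 𝒱 => h𝒱 V.2
    refine ⟨range fun V : 𝒱 => (g V).1, mk_range_le.trans h𝒱κ, fun y hy => ?_⟩
    have h1 : (⟨y, hy⟩ : Y) ∈ ⋃₀ 𝒱 := h𝒱cov ▸ mem_univ _
    obtain ⟨V, hV, hyV⟩ := h1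
    refine ⟨_, ⟨⟨V, hV⟩, rfl⟩, ?_⟩
    have h2 := hg ⟨V, hV⟩
    simp only at h2
    rw [← h2] at hyV
    exact hyV
  -- points outside `⋃ U e` are in the closure of `E`
  have hclE : ∀ s, (∀ e ∈ E, s ∉ U e) → ∀ G, IsOpen G → s ∈ G → ∃ e ∈ E, e ∈ G := by
    intro s hs G hG hsG
    have h1 := hH s G hG hsG
    obtain ⟨y, hyG, hyY⟩ := hY.inter_open_nonempty _ h1.1 ⟨s, h1.2.1⟩
    obtain ⟨e, he, hye⟩ := hEY y hyY
    rcases hHH s G e (U e) hG hsG (hUo e) (hxU e) ⟨y, hyG, hye⟩ with h | h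
    · exact absurd h (hs e he)
    · exact ⟨e, he, h⟩
  by_contra hno
  -- a function picking uncovered points
  have hp : ∀ B : Set X, ∃ p : X, #B ≤ κ → ∀ b ∈ B, p ∉ U b := by
    intro B
    by_cases hB : #B ≤ κ
    · by_contra hcon
      push Not at hcon
      refine hno ⟨U '' B, ?_, mk_image_le.trans hB, ?_⟩
      · rintro _ ⟨b, _, rfl⟩
        exact hU𝒰 b
      · rw [eq_univ_iff_forall]
        intro x
        obtain ⟨_, b, hb, hxb⟩ := hcon x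
        exact ⟨U b, ⟨b, hb, rfl⟩, hxb⟩
    · obtain ⟨x⟩ : Nonempty X := by
        by_contra hemp
        rw [not_nonempty_iff] at hemp
        exact hB (by
          have : B = ∅ := by ext x; exact (hemp.false x).elim
          rw [this]; simp)
      exact ⟨x, fun h => absurd h hB⟩
  choose p hp using hp
  let W := (Order.succ κ).ord.ToType
  have hwf : WellFounded ((· < ·) : W → W → Prop) := wellFounded_lt
  let s : W → X := hwf.fix fun ξ f => p (E ∪ {x | ∃ (η : W) (h : η < ξ), x = f η h})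
  have hs : ∀ ξ, s ξ = p (E ∪ {x | ∃ (η : W) (_ : η < ξ), x = s η}) := fun ξ => hwf.fix_eq _ ξ
  have hcard : ∀ ξ : W, #(E ∪ {x | ∃ (η : W) (_ : η < ξ), x = s η} : Set X) ≤ κ := by
    intro ξ
    refine (mk_union_le _ _).trans ?_
    have h1 : {x | ∃ (η : W) (_ : η < ξ), x = s η} = s '' Iio ξ := by
      ext x
      constructor
      · rintro ⟨η, h, rfl⟩
        exact ⟨η, h, rfl⟩
      · rintro ⟨η, h, rfl⟩
        exact ⟨η, h, rfl⟩
    rw [h1]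
    have h2 : #(s '' Iio ξ) ≤ κ := mk_image_le.trans (Order.lt_succ_iff.1 (mk_Iio_toType_ord_lt ξ))
    exact (add_le_add hEκ h2).trans (add_eq_self hκ).le
  have hsE : ∀ ξ, ∀ e ∈ E, s ξ ∉ U e := by
    intro ξ e he
    rw [hs ξ]
    exact hp _ (hcard ξ) e (Or.inl he)
  have hss : ∀ ξ η, η < ξ → s ξ ∉ U (s η) := by
    intro ξ η h
    rw [hs ξ]
    exact hp _ (hcard ξ) (s η) (Or.inr ⟨η, h, rfl⟩)
  -- small neighbourhoods with closure in `U (s ξ)`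
  let G : W → Set X := fun ξ => H (s ξ) (U (s ξ))
  have hG : ∀ ξ, IsOpen (G ξ) ∧ s ξ ∈ G ξ ∧ G ξ ⊆ U (s ξ) := fun ξ =>
    hH _ _ (hUo _) (hxU _)
  have hGG := fun ξ => hH (s ξ) (G ξ) (hG ξ).1 (hG ξ).2.1
  choose e heE he using fun ξ => hclE (s ξ) (hsE ξ) _ (hGG ξ).1 (hGG ξ).2.1
  obtain ⟨e₀, he₀⟩ := pigeon hκ E hEκ e heE
  have hchain : ∀ ξ η, e ξ = e₀ → e η = e₀ → ξ < η → s ξ ∈ G η := by
    intro ξ η h1 h2 h
    have h3 : (H (s ξ) (G ξ) ∩ H (s η) (G η)).Nonempty := ⟨e₀, h1 ▸ he ξ, h2 ▸ he η⟩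
    rcases hHH _ _ _ _ (hG ξ).1 (hG ξ).2.1 (hG η).1 (hG η).2.1 h3 with h4 | h4
    · exact h4
    · exact absurd ((hG ξ).2.2 h4) (hss η ξ h)
  have hWne : Nonempty W := by
    rw [← mk_ne_zero_iff, mk_ord_toType]
    exact (Order.bot_lt_succ κ).ne'
  by_cases hA : ∃ γ, ∀ ξ, e ξ = e₀ → s ξ ∈ closure {x | ∃ ζ, e ζ = e₀ ∧ ζ < γ ∧ x = s ζ}
  · obtain ⟨γ, hγ⟩ := hA
    obtain ⟨η, hη, hγη⟩ := he₀ γ
    obtain ⟨t, ht, hηt⟩ := he₀ η
    have h1 : {x | ∃ ζ, e ζ = e₀ ∧ ζ < γ ∧ x = s ζ} ⊆ G η := by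
      rintro _ ⟨ζ, hζ, hζγ, rfl⟩
      exact hchain ζ η hζ hη (hζγ.trans hγη)
    have h2 := closure_mono h1 (hγ t ht)
    exact hss t η hηt (hcl _ _ (hUo _) (hxU _) h2)
  · push Not at hA
    choose t ht htc using hA
    have hle : ∀ γ, γ ≤ t γ := by
      intro γ
      by_contra hlt
      exact htc γ (subset_closure ⟨t γ, ht γ, not_le.1 hlt, rfl⟩)
    let O : W → Set X := fun γ => U (s (t γ)) ∩ (closure {x | ∃ ζ, e ζ = e₀ ∧ ζ < γ ∧ x = s ζ})ᶜ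
    have hO : ∀ γ, IsOpen (O γ) := fun γ => (hUo _).inter isClosed_closure.isOpen_compl
    have hsO : ∀ γ, s (t γ) ∈ O γ := fun γ => ⟨hxU _, htc γ⟩
    have hHO := fun γ => hH (s (t γ)) (O γ) (hO γ) (hsO γ)
    choose d hdE hd using fun γ => hclE (s (t γ)) (hsE (t γ)) _ (hHO γ).1 (hHO γ).2.1
    obtain ⟨d₀, hd₀⟩ := pigeon hκ E hEκ d hdE
    obtain ⟨γ, hγ, _⟩ := hd₀ (Classical.arbitrary W)
    obtain ⟨γ', hγ', hlt⟩ := hd₀ (t γ)
    have h3 : (H (s (t γ)) (O γ) ∩ H (s (t γ')) (O γ')).Nonempty :=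
      ⟨d₀, hγ ▸ hd γ, hγ' ▸ hd γ'⟩
    rcases hHH _ _ _ _ (hO γ) (hsO γ) (hO γ') (hsO γ') h3 with h4 | h4
    · exact h4.2 (subset_closure ⟨t γ, ht γ, hlt, rfl⟩)
    · exact hss _ _ (hlt.trans_le (hle γ')) h4.1

/-- If `Y` is a dense subspace of a monotonically normal space `X`, then `l(X) ≤ l(Y)`. -/
theorem result {X : Type u} [TopologicalSpace X] (hX : MonotonicallyNormal X) (Y : Set X)
    (hY : Dense Y) : lindelofNumber X ≤ lindelofNumber Y := by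
  obtain ⟨h1, h2⟩ := lindelofNumber_mem Y
  exact csInf_le' ⟨h1, coversReduce_of_dense hX Y hY h1 h2⟩

end Pool.Agent.Results.MP_d81239_gt.LindelofDense
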